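import Pool.Agent.Lib.RYB.All0
import Pool.Agent.Lib.RYB.B_IND

/-! Project ra2, step B: the maximal family. -/

namespace Pool.Agent.Lib.RA

theorem bFAM : St_FAM := st_FAM st_X0 st_ONE bPBX st_IND

end Pool.Agent.Lib.RA
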