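import Pool.Agent.Lib.RYB.Blue
import Pool.Agent.Lib.HS32.B_HOL

/-! Project ra2, step B: commuting potentials have commuting fields. -/

open scoped Classical Topology ContDiff ComplexOrder Matrix
open Set Complex Filter

noncomputable section

namespace Pool.Agent.Lib.RA

open Pool.Agent.Lib.SV (E)
open Pool.Agent.Lib.HS32

namespace BXC

variable {r : ℕ} {f μ ν : E r → ℝ} {V W : E r → E r} {z : E r}

theorem bracket (hf : ContDiffAt ℝ ∞ f z) (hμ : ContDiffAt ℝ ∞ μ z) (hν : ContDiffAt ℝ ∞ ν z)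
    {v w : E r} (h1 : hr f z *ᵥ v = dbv μ z) (h2 : hr f z *ᵥ w = dbv ν z) (h3 : Come f μ ν z) :
    ∑ j, v j * dz j (fun x => (ν x : ℂ)) z = ∑ j, w j * dz j (fun x => (μ x : ℂ)) z := by
  have hh : (hr f z)ᴴ = hr f z := hess_herm hf
  have a1 : star w ⬝ᵥ hr f z *ᵥ v = ∑ j, v j * dz j (fun x => (ν x : ℂ)) z := by
    rw [Matrix.dotProduct_mulVec, ← hh, ← Matrix.star_mulVec, h2, dotProduct]
    refine Finset.sum_congr rfl fun j _ => ?_
    rw [mul_comm, Pi.star_apply, dbv, star_dzb_ofReal (cd_diff (cd_ofReal hν))]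
  have a2 : star (star w ⬝ᵥ hr f z *ᵥ v) = ∑ j, w j * dz j (fun x => (μ x : ℂ)) z := by
    rw [h1, dotProduct, star_sum]
    refine Finset.sum_congr rfl fun j _ => ?_
    rw [star_mul', Pi.star_apply, star_star, dbv, star_dzb_ofReal (cd_diff (cd_ofReal hμ))]
  rw [← a1, ← a2]
  exact (conj_eq_iff_im.mpr (h3 v w h1 h2)).symm

theorem comp (hV : HolN V z) (l : Fin r) : HolN (fun w => V w l) z :=
  hV.mono fun _ h => differentiableAt_pi.mp h l

theorem fd_apply (hV : HolN V z) (v : E r) (l : Fin r) :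
    fderiv ℂ V z v l = ∑ j, v j * dz j (fun w => V w l) z := by
  have hd := hV.self_of_nhds
  have e : v = ∑ j, v j • (Pi.single j 1 : E r) := by
    funext a
    simp [Finset.sum_apply, Pi.single_apply]
  conv_lhs => rw [e]
  rw [map_sum, Finset.sum_apply]
  refine Finset.sum_congr rfl fun j _ => ?_
  rw [map_smul, Pi.smul_apply, smul_eq_mul, BHOL.dz_eq (differentiableAt_pi.mp hd l),
    fderiv_apply hd l]
  rfl

theorem expand (hf : ContDiffAt ℝ ∞ f z) (hν : ContDiffAt ℝ ∞ ν z) (hV : HolN V z) (hW : HolN W z)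
    (h : ∀ᶠ w in 𝓝 z, hr f w *ᵥ W w = dbv ν w) (i : Fin r) :
    dzb i (fun w => ∑ j, V w j * dz j (fun x => (ν x : ℂ)) w) z =
      ∑ j, ∑ l, V z j * W z l * dM j (hr f) z i l + (hr f z *ᵥ fderiv ℂ W z (V z)) i := by
  have sV : ∀ j, DifferentiableAt ℝ (fun w => V w j) z := fun j => cd_diff (BHOL.smooth (comp hV j))
  have sW : ∀ j, DifferentiableAt ℝ (fun w => W w j) z := fun j => cd_diff (BHOL.smooth (comp hW j))
  have sN : ∀ j, DifferentiableAt ℝ (dz j fun x => (ν x : ℂ)) z := fun j =>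
    cd_diff (cd_dz (cd_ofReal hν) j)
  have sG : SmM (hr f) z := smM_hess (cd_ofReal hf)
  have e : dzb i (fun x => (ν x : ℂ)) =ᶠ[𝓝 z] fun w => ∑ l, hr f w i l * W w l :=
    h.mono fun w hw => (congrFun hw i).symm
  rw [dzb_sum (f := fun j w => V w j * dz j (fun x => (ν x : ℂ)) w)
    fun j _ => (sV j).mul (sN j)]
  have k : ∀ j, dzb i (fun w => V w j * dz j (fun x => (ν x : ℂ)) w) z =
      ∑ l, (V z j * W z l * dM j (hr f) z i l +
        hr f z i l * (V z j * dz j (fun w => W w l) z)) := by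
    intro j
    rw [dzb_mul (sV j) (sN j), BHOL.dzb_zero (comp hV j).self_of_nhds, ← dz_dzb (cd_ofReal hν),
      dz_congr e, dz_sum (f := fun l w => hr f w i l * W w l)
        fun l _ => (sG.diff i l).mul (sW l)]
    simp only [zero_mul, zero_add, Finset.mul_sum]
    refine Finset.sum_congr rfl fun l _ => ?_
    rw [dz_mul (sG.diff i l) (sW l)]
    simp only [dM, Matrix.of_apply]
    ring
  simp only [k, Finset.sum_add_distrib]
  congr 1
  rw [Finset.sum_comm]
  simp only [Matrix.mulVec, dotProduct, fd_apply hW, Finset.mul_sum]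

theorem point (hf : ∀ᶠ w in 𝓝 z, ContDiffAt ℝ ∞ f w) (hμ : ∀ᶠ w in 𝓝 z, ContDiffAt ℝ ∞ μ w)
    (hν : ∀ᶠ w in 𝓝 z, ContDiffAt ℝ ∞ ν w) (hd : (hr f z).det ≠ 0) (hV : HolN V z)
    (hW : HolN W z)
    (h : ∀ᶠ w in 𝓝 z, hr f w *ᵥ V w = dbv μ w ∧ hr f w *ᵥ W w = dbv ν w ∧ Come f μ ν w) :
    fderiv ℂ V z (W z) = fderiv ℂ W z (V z) := by
  have e : (fun w => ∑ j, V w j * dz j (fun x => (ν x : ℂ)) w) =ᶠ[𝓝 z]
      fun w => ∑ j, W w j * dz j (fun x => (μ x : ℂ)) w := by
    filter_upwards [hf, hμ, hν, h] with w a b c d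
    exact bracket a b c d.1 d.2.1 d.2.2
  have hc : ClM (hr f) z := clM_hess (cd_ofReal hf.self_of_nhds)
  have k : hr f z *ᵥ fderiv ℂ V z (W z) = hr f z *ᵥ fderiv ℂ W z (V z) := by
    funext i
    have a1 := expand hf.self_of_nhds hν.self_of_nhds hV hW (h.mono fun _ h => h.2.1) i
    have a2 := expand hf.self_of_nhds hμ.self_of_nhds hW hV (h.mono fun _ h => h.1) i
    rw [dzb_congr e, a2] at a1
    have a3 : ∑ j, ∑ l, W z j * V z l * dM j (hr f) z i l =
        ∑ j, ∑ l, V z j * W z l * dM j (hr f) z i l := by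
      rw [Finset.sum_comm]
      refine Finset.sum_congr rfl fun j _ => Finset.sum_congr rfl fun l _ => ?_
      rw [hc i j l]
      ring
    rw [a3] at a1
    exact add_left_cancel a1
  exact Matrix.mulVec_injective_iff_isUnit.mpr
    ((Matrix.isUnit_iff_isUnit_det _).mpr (isUnit_iff_ne_zero.mpr hd)) k

end BXC

theorem st_BXC : St_BXC := by
  intro r f μ ν V W z hf hμ hν hd hV hW h
  have s : ∀ {g : E r → ℝ}, AnalyticAt ℝ g z → ∀ᶠ w in 𝓝 z, ContDiffAt ℝ ∞ g w := fun hg =>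
    hg.eventually_analyticAt.mono fun _ h => h.contDiffAt
  have hd' : ∀ᶠ w in 𝓝 z, (hr f w).det ≠ 0 :=
    (smM_hess (cd_ofReal (s hf).self_of_nhds)).ev_det hd
  filter_upwards [(s hf).eventually_nhds, (s hμ).eventually_nhds, (s hν).eventually_nhds, hd',
    hV.eventually_nhds, hW.eventually_nhds, h.eventually_nhds] with w a b c d e g k
  exact BXC.point a b c d e g k

end Pool.Agent.Lib.RA
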