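import Pool.Agent.Lib.RYB.Blue
import Pool.Agent.Lib.RY.B_CH2
import Pool.Agent.Lib.RY.K_At

/-! Project ra2, step B: a box in coordinates. -/

open scoped Classical Topology ContDiff ComplexOrder Matrix
open Set MeasureTheory Complex Metric Filter

set_option linter.unusedVariables false

noncomputable section

namespace Pool.Agent.Lib.RA

open Pool.Agent.Lib.SV (E nsq)
open Pool.Agent.Lib.HS32

theorem BBXE.hr_comp {n r : ℕ} {H : E n → E r} {z : E n} {u : E r → ℝ} (h : HolN H z)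
    (hu : ContDiffAt ℝ ∞ u (H z)) : hr (u ∘ H) z = (jr H z)ᴴ * hr u (H z) * jr H z :=
  BCH2.hess_comp h (f := fun t => (u t : ℂ)) (cd_ofReal hu)

open KA in
theorem st_BXE (h1 : St_BX1) (h2 : St_BX2) (hTV : St_TV) : St_BXE := by
  intro n k j f Φ c R μ hP hr0 hK hL
  obtain ⟨τ, s, t1, t0, s1, s0, ts, tz, fa, fp, kg, li⟩ := h1 n (k + j) k f Φ c R μ hP hr0 hK hL
  obtain ⟨ψ, χ, Ψ, c₀, p1, p0, c1, c0, pc, tv, pz⟩ := h2 k j _ _ fa fp kg li
  have tt : Tendsto τ (𝓝 c) (𝓝 0) := t0 ▸ t1.self_of_nhds.continuousAt.tendsto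
  have ct : Tendsto χ (𝓝 0) (𝓝 0) := by
    simpa only [ContinuousAt, c0] using c1.self_of_nhds.continuousAt
  have st : Tendsto s (𝓝 0) (𝓝 c) := s0 ▸ s1.self_of_nhds.continuousAt.tendsto
  obtain ⟨U, hU, oU, cU⟩ := _root_.eventually_nhds_iff.1
    ((isOpen_ball.eventually_mem (mem_ball_self (x := c) hP.r0)).and (t1.eventually_nhds.and (tz.and
      (tt.eventually (p1.eventually_nhds.and (pz.and fa.eventually_analyticAt))))))
  have sc : HolN (s ∘ χ) 0 := holN_comp (by rwa [c0]) c1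
  obtain ⟨ε, e0, hε⟩ := Metric.eventually_nhds_iff_ball.1 (sc.eventually_nhds.and (pc.and
    ((ct.eventually ts).and ((st.comp ct).eventually (oU.eventually_mem cU)))))
  obtain ⟨δ, hT, hδ⟩ := (tv.and ((eventually_lt_nhds (half_pos e0)).filter_mono
    nhdsWithin_le_nhds)).exists
  have hb : ball (0 : E (k + j)) (2 * δ) ⊆ ball 0 ε := ball_subset_ball (by linarith)
  have hH : ∀ z ∈ U, HolN (ψ ∘ τ) z := fun z hz => holN_comp (hU z hz).2.2.2.1 (hU z hz).2.1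
  have d0 := hT.d0
  refine ⟨Ψ, δ, c₀, U ∩ (ψ ∘ τ) ⁻¹' ball 0 (2 * δ), ψ ∘ τ, s ∘ χ, hT,
    ContinuousOn.isOpen_inter_preimage
      (fun z hz => (hH z hz).self_of_nhds.continuousAt.continuousWithinAt) oU isOpen_ball,
    ⟨cU, by simpa [t0, p0] using d0⟩, fun z hz => (hU z hz.1).1, by simp [t0, p0],
    by simp [c0, s0], fun z hz => ?_, fun t ht => ?_⟩
  · obtain ⟨-, a1, ⟨a2, a3, a4⟩, a5, ⟨a6, a7, a8⟩, a9⟩ := hU z hz.1
    have hv : ‖(ψ ∘ τ) z‖ < 2 * δ := mem_ball_zero_iff.1 hz.2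
    have an := ((hTV k j Ψ δ c₀ hT).2.2.2.2.1 _
      (((hTV k j Ψ δ c₀ hT).2.1 _).trans_lt hv)).1.contDiffAt (n := ∞)
    refine ⟨hH z hz.1, hv, ?_, an.comp z (BCH2.cd (hH z hz.1)), ?_, fun i => ?_⟩
    · rw [fderiv_comp z a5.self_of_nhds a1.self_of_nhds]
      exact a6.comp a2
    · rw [← a3, BBXE.hr_comp a1 a9.contDiffAt, ← a7,
        ← BBXE.hr_comp a1 (an.comp (τ z) (BCH2.cd a5))]
      rfl
    · exact (a4 i).symm.trans (a8 i)
  · obtain ⟨a1, a2, a3, a4⟩ := hε t (hb ht)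
    have q : (ψ ∘ τ) ((s ∘ χ) t) = t := by simp only [Function.comp, a3, a2]
    exact ⟨⟨a4, by rw [mem_preimage, q]; exact ht⟩, q, a1⟩

end Pool.Agent.Lib.RA
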