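import Pool.Agent.Lib.RYB.Blue
import Pool.Agent.Lib.RA.T_PCL
import Pool.Agent.Lib.RA.T_POL
import Pool.Agent.Lib.RY.B_TV
import Pool.Agent.Lib.RY.B_EXT

/-! Project ra2, step B: the invariant potential. -/

open scoped Classical Topology ContDiff ComplexOrder Matrix
open Set MeasureTheory Complex Metric Filter

set_option linter.unusedVariables false

noncomputable section

namespace Pool.Agent.Lib.RA

open Pool.Agent.Lib.SV (E nsq)
open Pool.Agent.Lib.HS32 Pool.Agent.Lib.PN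

namespace BXP49

open PK

variable {n : ℕ}

lemma dg0 : dg (0 : E n) = 0 := by simp [dg]

lemma pol {f : E n → ℝ} {c : E n} (hf : AnalyticAt ℝ f c) :
    ∃ F : E n × E n → ℂ, Hn F (dg c) ∧ ∀ᶠ z in 𝓝 c, F (dg z) = f z := by
  obtain ⟨R, hR, F, h1, h2⟩ := st_POL.1 n f c hf
  exact ⟨F, hn_of_on isOpen_ball h1 (mem_ball_self hR), mem_of_superset (ball_mem_nhds c hR) h2⟩

lemma pol_hr {f : E n → ℝ} {F : E n × E n → ℂ} {c : E n} (h : Hn F (dg c))
    (e : ∀ᶠ z in 𝓝 c, F (dg z) = f z) : ∀ᶠ z in 𝓝 c, hr f z = Gm F (dg z) ∧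
      dbv f z = pu F (dg z) ∧ (F (dg z)).im = 0 := by
  filter_upwards [(tendsto_dg c).eventually (hn_ev h), e.eventually_nhds] with z h1 h2
  have h3 : (fun w => (f w : ℂ)) =ᶠ[𝓝 z] fun w => F (dg w) := h2.mono fun w hw => hw.symm
  refine ⟨?_, ?_, by rw [h2.self_of_nhds]; simp⟩
  · rw [← hess_dg h1]
    ext a b
    have h4 : dz b (fun w => (f w : ℂ)) =ᶠ[𝓝 z] dz b fun w => F (dg w) :=
      h3.eventuallyEq_nhds.mono fun w hw => by simp only [dz, hw.fderiv_eq]
    simp only [hr, hess, Matrix.of_apply, dzb, h4.fderiv_eq]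
  · funext a
    rw [← dzb_dg (hn_at h1)]
    simp only [dbv, dzb, h3.fderiv_eq]

/-- A holomorphic function whose `u` gradient vanishes does not depend on `u`. -/
lemma indep {h : E n × E n → ℂ} (hh : Hn h 0) (h0 : ∀ᶠ w in 𝓝 (0 : E n × E n), pu h w = 0) :
    ∀ᶠ w in 𝓝 (0 : E n × E n), h w = h (w.1, 0) := by
  obtain ⟨ε, hε, hb⟩ := Metric.mem_nhds_iff.1 (hh.and h0)
  filter_upwards [ball_mem_nhds _ hε] with w hw
  have m : ∀ u ∈ ball (0 : E n) ε, (w.1, u) ∈ ball (0 : E n × E n) ε := fun u hu => by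
    rw [mem_ball_zero_iff] at *
    exact max_lt ((norm_fst_le w).trans_lt hw) hu
  refine (convex_ball (0 : E n) ε).is_const_of_fderivWithin_eq_zero (𝕜 := ℂ)
    (f := fun u => h (w.1, u))
    (fun u hu => (hasF_u (hb (m u hu)).1).differentiableAt.differentiableWithinAt)
    (fun u hu => ?_) (x := w.2) (y := 0)
    (mem_ball_zero_iff.2 ((norm_snd_le w).trans_lt (mem_ball_zero_iff.1 hw))) (mem_ball_self hε)
  rw [fderivWithin_of_isOpen isOpen_ball hu]
  refine ContinuousLinearMap.ext fun v => ?_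
  rw [slice_u (hb (m u hu)).1, (hb (m u hu)).2]
  simp

lemma fd_fst {A : E n → ℂ} {w : E n × E n} (h : DifferentiableAt ℂ A w.1) (v : E n × E n) :
    fderiv ℂ (fun x : E n × E n => A x.1) w v = fderiv ℂ A w.1 v.1 := by
  have := (h.hasFDerivAt.comp w hasFDerivAt_fst).fderiv
  rw [show (fun x : E n × E n => A x.1) = A ∘ Prod.fst from rfl, this]
  rfl

lemma pz_sub {F G : E n × E n → ℂ} {w : E n × E n} (h : DifferentiableAt ℂ F w)
    (h' : DifferentiableAt ℂ G w) (a : Fin n) :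
    pz (fun x => F x - G x) w a = pz F w a - pz G w a := by
  simp only [pz, fderiv_fun_sub h h', sub_apply]

lemma pu_sub {F G : E n × E n → ℂ} {w : E n × E n} (h : DifferentiableAt ℂ F w)
    (h' : DifferentiableAt ℂ G w) (a : Fin n) :
    pu (fun x => F x - G x) w a = pu F w a - pu G w a := by
  simp only [pu, fderiv_fun_sub h h', sub_apply]

/-- Subtracting twice the real part of a holomorphic function. -/
lemma sub_re {F : E n × E n → ℂ} {A : E n → ℂ} (hF : Hn F 0) (hA : Hn A 0) :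
    ∃ Ψ : E n × E n → ℂ, Hn Ψ 0 ∧ (∀ z, (Ψ (dg z)).im = (F (dg z)).im) ∧
      ∀ᶠ w in 𝓝 (0 : E n × E n), Gm Ψ w = Gm F w ∧
        ∀ a, pz Ψ w a = pz F w a - fderiv ℂ A w.1 (Pi.single a 1) := by
  have t1 : Tendsto (Prod.fst : E n × E n → E n) (𝓝 0) (𝓝 0) := continuous_fst.tendsto 0
  have s0 : sw (0 : E n × E n) = 0 := by simp [sw]
  have t2 : Tendsto (sw : E n × E n → _) (𝓝 0) (𝓝 0) := by
    simpa [s0] using tendsto_sw (0 : E n × E n)
  set B : E n × E n → ℂ := fun x => A x.1 with hB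
  have hB0 : Hn B 0 := (t1.eventually hA).mono fun x hx => hx.comp x differentiableAt_fst
  have hC : Hn (cj B) 0 := hn_cj (by rwa [s0])
  have hp : ∀ᶠ w in 𝓝 (0 : E n × E n), ∀ a, pz (fun x => F x - B x - cj B x) w a =
      pz F w a - fderiv ℂ A w.1 (Pi.single a 1) := by
    filter_upwards [hF, hB0, hC, t1.eventually hA, t2.eventually hB0,
      t2.eventually (t1.eventually hA)] with w h1 h2 h3 h4 h5 h6 a
    rw [pz_sub (h1.fun_sub h2) h3, pz_sub h1 h2, pz_cj h5]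
    simp only [pz, pu, hB, Pi.star_apply, fd_fst h4, fd_fst h6, map_zero, star_zero, sub_zero]
  refine ⟨fun x => F x - B x - cj B x, ((hF.and hB0).and hC).mono fun x hx =>
    (hx.1.1.fun_sub hx.1.2).fun_sub hx.2, fun z => by simp [cj_dg], ?_⟩
  filter_upwards [hp.eventually_nhds, hn_ev hF, t1.eventually (hn_ev hA)] with w h1 h2 h3
  refine ⟨?_, h1.self_of_nhds⟩
  ext a b
  have e : (fun x => pz (fun x => F x - B x - cj B x) x b) =ᶠ[𝓝 w]
      fun x => pz F x b - fderiv ℂ A x.1 (Pi.single b 1) := h1.mono fun x hx => hx b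
  have d := hn_at (hn_fd h3 (Pi.single b 1))
  rw [← pu_pz, pu_congr e, pu_sub (G := fun x => fderiv ℂ A x.1 (Pi.single b 1))
    (hn_at (hn_pz h2 b)) (d.comp w differentiableAt_fst), pu_pz]
  simp only [pu, fd_fst (A := fun y => fderiv ℂ A y (Pi.single b 1)) d, map_zero, sub_zero]

end BXP49

open PK BXP49 in
theorem st_BXP : St_BXP := by
  intro k j f μ hf hμ hpd H
  obtain ⟨F, hF, eF⟩ := pol hf
  choose m hm em using fun i => pol (hμ i)
  have rF := pol_hr hF eF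
  have rm := fun i => pol_hr (hm i) (em i)
  have cF := cj_eq_loc hF (rF.mono fun _ h => h.2.2)
  have cm := fun i => cj_eq_loc (hm i) ((rm i).mono fun _ h => h.2.2)
  have td := tendsto_dg (0 : E (k + j))
  have e1 : ∀ i, ∀ᶠ t in 𝓝 (0 : E (k + j)), ∀ a,
      Gm F (dg t) a (Fin.castAdd j i) = pu (m i) (dg t) a := fun i => by
    filter_upwards [H, rF, rm i] with t h1 h2 h3 a
    rw [← h2.1, ← h3.2.1, ← (h1 i).1]
    simp
  have e2 : ∀ i, ∀ᶠ t in 𝓝 (0 : E (k + j)), ∀ l,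
      pz (m i) (dg t) (Fin.castAdd j l) = Gm F (dg t) (Fin.castAdd j l) (Fin.castAdd j i) :=
    fun i => by
    filter_upwards [H, rF, e1 i, td.eventually (hm i), td.eventually (cm i).eventuallyEq_nhds]
      with t h1 h2 h3 h4 h5 l
    rw [pz_sw (by simpa using h4) h5, sw_dg, Pi.star_apply, ← h3, ← h2.1]
    exact conj_eq_iff_im.2 ((h1 i).2 l)
  have e3 : ∀ i l, (fun w => pz (m i) w (Fin.castAdd j l)) =ᶠ[𝓝 (dg 0)]
      fun w => pz (m l) w (Fin.castAdd j i) := fun i l => by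
    refine id2_eq (hn_pz (hm i) _) (hn_pz (hm l) _) ?_
    filter_upwards [H, rF, e2 i, e2 l, td.eventually (hn_ev hF), td.eventually cF.eventuallyEq_nhds]
      with t h1 h2 h3 h4 h5 h6
    have h7 := congrFun (congrFun (Gm_sw (by simpa using h5) h6) (Fin.castAdd j l))
      (Fin.castAdd j i)
    rw [h3, h4, h7, sw_dg, Matrix.conjTranspose_apply, ← h2.1]
    exact conj_eq_iff_im.2 ((h1 l).2 i)
  set h : Fin k → E (k + j) × E (k + j) → ℂ := fun i w => pz F w (Fin.castAdd j i) - m i w with hh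
  have hH : ∀ i, Hn (h i) (dg 0) := fun i =>
    ((hn_pz hF _).and (hm i)).mono fun x hx => hx.1.fun_sub hx.2
  have e4 : ∀ i, ∀ᶠ w in 𝓝 (dg (0 : E (k + j))), pu (h i) w = 0 := fun i => by
    have : ∀ a, (fun w => Gm F w a (Fin.castAdd j i)) =ᶠ[𝓝 (dg 0)] fun w => pu (m i) w a :=
      fun a => id2_eq (hn_Gm hF _ _) (hn_pu (hm i) _) ((e1 i).mono fun t ht => ht a)
    filter_upwards [eventually_all.2 this, hn_pz hF (Fin.castAdd j i), hm i] with w h1 h2 h3
    funext a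
    rw [hh, pu_sub h2 h3, pu_pz, h1 a, sub_self, Pi.zero_apply]
  simp only [dg0] at hF hm hH e3 e4 cF cm
  have e5 := fun i => indep (hH i) (e4 i)
  have t0 : Tendsto (fun z : E (k + j) => (z, (0 : E (k + j)))) (𝓝 0) (𝓝 0) :=
    (continuous_id.prodMk continuous_const).tendsto 0
  obtain ⟨A, hA⟩ := st_PCL (E (k + j)) (Fin k) (fun i => Pi.single (Fin.castAdd j i) 1)
    (fun i z => h i (z, 0)) 0
    (by
      have := (Pi.basisFun ℂ (Fin (k + j))).linearIndependent.comp _ (Fin.castAdd_injective k j)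
      simp only [Function.comp_def, Pi.basisFun_apply] at this
      exact this) (by
      filter_upwards [t0.eventually (eventually_all.2 hH), t0.eventually (hn_ev hF),
        t0.eventually (eventually_all.2 hm),
        t0.eventually (eventually_all.2 fun i => eventually_all.2 (e3 i))] with z h1 h2 h3 h4
      refine ⟨fun i => (hasF_z (h1 i)).differentiableAt, fun i l => ?_⟩
      rw [← pz_slice (h1 i), ← pz_slice (h1 l), hh, pz_sub (hn_at (hn_pz h2 _)) (h3 i),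
        pz_sub (hn_at (hn_pz h2 _)) (h3 l), h4 i l]
      congr 1
      exact fd_symm h2 _ _)
  obtain ⟨Ψ, hΨ, iΨ, eΨ⟩ := sub_re hF (hA.mono fun _ h => h.1)
  have t1 : Tendsto (Prod.fst : E (k + j) × E (k + j) → _) (𝓝 0) (𝓝 0) := continuous_fst.tendsto 0
  have e6 : ∀ᶠ w in 𝓝 (0 : E (k + j) × E (k + j)), ∀ i, pz Ψ w (Fin.castAdd j i) = m i w := by
    filter_upwards [eΨ, t1.eventually hA, eventually_all.2 e5] with w h1 h2 h3 i
    rw [h1.2, h2.2, ← h3, hh, sub_sub_cancel]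
  have s0 : sw (0 : E (k + j) × E (k + j)) = 0 := by simp [sw]
  have t2 : Tendsto (sw : E (k + j) × E (k + j) → _) (𝓝 0) (𝓝 0) := by
    simpa [s0] using tendsto_sw (0 : E (k + j) × E (k + j))
  have r0 : ∀ᶠ t in 𝓝 (0 : E (k + j)), (Ψ (dg t)).im = 0 := rF.mono fun t ht => (iΨ t).trans ht.2.2
  have cΨ := cj_eq_loc (z := 0) (by rwa [dg0]) r0
  rw [dg0] at cΨ td
  have e7 : ∀ᶠ w in 𝓝 (0 : E (k + j) × E (k + j)), fx (pz Ψ w) = fx (pu Ψ w) := by
    filter_upwards [e6, t2.eventually e6, t2.eventually hΨ, cΨ.eventuallyEq_nhds,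
      eventually_all.2 cm] with w h1 h2 h3 h4 h5
    funext i
    rw [fx, fx, pu_sw h3 h4, Pi.star_apply, h1, h2]
    exact (h5 i).symm
  obtain ⟨R₁, hR₁, b1⟩ := Metric.mem_nhds_iff.1 (hΨ.and e7)
  obtain ⟨R₂, hR₂, b2⟩ := Metric.mem_nhds_iff.1 r0
  obtain ⟨c, hc⟩ := st_TVE (k + j) Ψ (min R₁ R₂) (lt_min hR₁ hR₂)
    (fun w hw => (b1 (ball_subset_ball (min_le_left _ _) hw)).1.differentiableWithinAt)
    (fun t ht => b2 (ball_subset_ball (min_le_right _ _) ht))
    (by rw [eΨ.self_of_nhds.1, ← dg0, ← rF.self_of_nhds.1]; exact hpd)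
  have hT : ∀ᶠ δ in 𝓝[>] (0 : ℝ), Tv k j Ψ δ c := by
    filter_upwards [hc, Ioo_mem_nhdsGT (half_pos hR₁)] with δ h1 h2
    exact ⟨h1, fun w hw => (b1 (ball_subset_ball (by linarith [h2.2]) hw)).2⟩
  refine ⟨Ψ, c, hT, ?_⟩
  obtain ⟨δ, hδ⟩ := hT.exists
  obtain ⟨-, v2, -, v4, v5, -⟩ := st_TV k j Ψ δ c hδ
  filter_upwards [ball_mem_nhds (0 : E (k + j)) (by linarith [hδ.d0] : 0 < 2 * δ), rF,
    td.eventually eΨ, td.eventually e6, eventually_all.2 em] with t h1 h2 h3 h4 h5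
  refine ⟨?_, fun i => ?_⟩
  · rw [(v5 t ((v2 t).trans_lt (mem_ball_zero_iff.1 h1))).2.2.1, ← (v4 t h1).2.1, h3.1, h2.1]
  · have := congrFun (v4 t h1).2.2 i
    rw [fx, h4, h5, cx] at this
    exact_mod_cast this

end Pool.Agent.Lib.RA
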