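import Pool.Agent.Lib.RYB.B_GLB

/-! Project ra2, step B: a maximal commuting family. -/

open scoped Classical Topology ContDiff ComplexOrder Matrix
open Set MeasureTheory Complex Metric Filter

set_option linter.unusedVariables false

noncomputable section

namespace Pool.Agent.Lib.RA

open Pool.Agent.Lib.SV (E nsq)
open Pool.Agent.Lib.HS32 Pool.Agent.Lib.PN

namespace K10

variable {n r k : ℕ} {M : Mf n} {e : M.Ch} {x : M.X}

theorem herm_im {A : Mat n} (h : A.IsHermitian) (V W : E n) :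
    (star V ⬝ᵥ A *ᵥ W).im = -(star W ⬝ᵥ A *ᵥ V).im := by
  have : star V ⬝ᵥ A *ᵥ W = star (star W ⬝ᵥ A *ᵥ V) := by
    rw [Matrix.star_dotProduct, Matrix.star_mulVec, h.eq, ← Matrix.dotProduct_mulVec]
  rw [this, star_def, conj_im]

theorem come_symm {f μ ν : E n → ℝ} {z : E n} (hf : (hr f z).IsHermitian) (h : Come f μ ν z) :
    Come f ν μ z := fun V W a b => by rw [herm_im hf, h W V b a, neg_zero]

theorem come_self {f μ : E n → ℝ} {z : E n} (hf : (hr f z).IsHermitian) : Come f μ μ z :=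
  fun V W a b => by
    have := herm_im hf W W
    rw [a, ← b]
    linarith

theorem li_ev {μ : Fin k → E n → ℝ} {z : E n} (ha : ∀ i, AnalyticAt ℝ (μ i) z)
    (h : LinearIndependent ℂ fun i => dbv (μ i) z) :
    ∀ᶠ w in 𝓝 z, LinearIndependent ℂ fun i => dbv (μ i) w := by
  have c : ContinuousAt (fun w => fun i => dbv (μ i) w) z :=
    continuousAt_pi.2 fun i => continuousAt_pi.2 fun l =>
      (cd_dzb (cd_ofReal (ha i).contDiffAt) l).continuousAt
  exact c.eventually (isOpen_setOfPred_linearIndependent.mem_nhds h)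

variable {G : M.Fam (Mat n)} {φ : M.Fam ℝ} {μ : Fin k → M.X → ℝ}

theorem xg_open (hX : St_X0) (hO : St_ONE) (hS : Su M G φ r) (hK : Kf M φ r μ) :
    IsOpen (Xg M φ r μ) := by
  refine isOpen_iff_mem_nhds.2 fun x hx => ?_
  have he := Mf.ch_mem x
  filter_upwards [(hX n M φ r hS.wt hS.an hS.le).1.mem_nhds hx.1,
    (M.ch x).open_source.mem_nhds (Mf.mem_ch x), ((M.ch x).continuousAt (Mf.mem_ch x)).eventually
      (li_ev (fun i => (hK.kp i x).1 _ he (Mf.mem_ch x)) (hx.2 _ he (Mf.mem_ch x)))] with y a b c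
  exact ⟨a, (hO n M _ he y b).2.2.2.2.1 k μ (fun i => (hK.kp i y).1) c⟩

theorem kg_of (hX : St_X0) (hS : Su M G φ r) (hK : Kf M φ r μ) (he : e ∈ M.C) (hx : x ∈ e.source)
    (h0 : x ∈ X0 M (M.hw φ) r) : Kg (φ e) (fun i => μ i ∘ e.symm) (e x) := by
  refine ⟨fun i => (hK.kp i x).1 e he hx, fun i => (hK.kp i x).2.self_of_nhds h0 e he hx, ?_⟩
  filter_upwards [(ev_chart hx).1 ((hX n M φ r hS.wt hS.an hS.le).1.mem_nhds h0),
    e.open_target.mem_nhds (e.map_source hx)] with w a b i i'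
  exact at_tgt (p := fun e z => Come (φ e) (μ i ∘ e.symm) (μ i' ∘ e.symm) z) he b (hK.com i i' _ a)

theorem xg_dense [M.Cpt] (hX : St_X0) (hO : St_ONE) (hP : St_PBX) (hI : St_IND) (hS : Su M G φ r)
    (hH : HF M φ r) (hK : Kf M φ r μ) : Dense (Xg M φ r μ) := by
  refine dense_iff_inter_open.2 fun U hU hne => ?_
  by_contra hc
  obtain ⟨x, h1, h0⟩ := hS.den.inter_open_nonempty U hU hne
  have he := Mf.ch_mem x
  have hx := Mf.mem_ch x
  obtain ⟨R, Φ, hs, hb⟩ := (hP n r M G φ hS hH _ he).1 _ (Mf.ch_tgt x)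
  obtain ⟨a, b, ha, h⟩ := hI n r k _ Φ _ R (fun i => μ i ∘ (M.ch x).symm) hb _
    (mem_ball_self hb.r0) ((x0_iff hO hS.wt he hx).1 h0) (kg_of hX hS hK he hx h0) (by
      filter_upwards [(ev_chart hx).1 (inter_mem (hU.mem_nhds h1)
        ((hX n M φ r hS.wt hS.an hS.le).1.mem_nhds h0)),
        (M.ch x).open_target.mem_nhds (Mf.ch_tgt x)] with w c d q
      refine hc ⟨_, c.1, c.2, (hO n M _ he _ ((M.ch x).map_target d)).2.2.2.2.1 k μ
        (fun i => (hK.kp i _).1) ?_⟩
      rwa [(M.ch x).right_inv d])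
  refine ha (hK.ind a b (an_eq (x := x) (fun y e he hy => ?_) (fun y e he hy => analyticAt_const)
    ((ev_chart hx).2 h)))
  exact Finset.analyticAt_fun_sum (f := fun i z => a i * μ i (e.symm z)) _ fun i _ =>
    analyticAt_const.mul ((hK.kp i y).1 e he hy)

theorem kf_le [M.Cpt] (hO : St_ONE) (hS : Su M G φ r) (hK : Kf M φ r μ)
    (hd : Dense (Xg M φ r μ)) : k ≤ r := by
  obtain ⟨x, h0, h1⟩ := hd.nonempty
  have he := Mf.ch_mem x
  have hx := Mf.mem_ch x
  choose V hV hV' using fun i => (hK.kp i x).2.self_of_nhds h0 _ he hx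
  have h2 : LinearIndependent ℂ fun i => (⟨dbv (μ i ∘ (M.ch x).symm) (M.ch x x),
      V i _, (hV' i).self_of_nhds⟩ : LinearMap.range (hr (φ (M.ch x)) (M.ch x x)).mulVecLin) :=
    LinearIndependent.of_comp (Submodule.subtype _) (h1 _ he hx)
  have h3 := h2.fintype_card_le_finrank
  rw [Fintype.card_fin] at h3
  exact h3.trans ((x0_iff hO hS.wt he hx).1 h0).le

theorem kmax_of (hS : Su M G φ r) (hK : Kf M φ r μ)
    (hn : ¬∃ μ' : Fin (k + 1) → M.X → ℝ, Kf M φ r μ') : KMax M φ r μ := by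
  intro ν h1 h2
  have hh : ∀ x, At M x fun e z => (hr (φ e) z).IsHermitian := fun x e he hx =>
    (su_psd hS he (e.map_source hx)).1
  by_contra hc
  refine hn ⟨Fin.cons ν μ, fun i => Fin.cases h1 hK.kp i, fun i i' x hx => ?_, fun a b h => ?_⟩
  · refine Fin.cases ?_ (fun i => ?_) i <;> refine Fin.cases ?_ (fun i' => ?_) i'
    · exact fun e he h => come_self (hh x e he h)
    · exact fun e he h => come_symm (hh x e he h) (h2 i' x hx e he h)
    · exact h2 i x hx
    · exact hK.com i i' x hx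
  · simp only [Fin.sum_univ_succ, Fin.cons_zero, Fin.cons_succ] at h
    have h0 : a 0 = 0 := by
      by_contra h0
      refine hc ⟨fun i => -a i.succ / a 0, b / a 0, fun x => ?_⟩
      have : ∑ i, -a i.succ / a 0 * μ i x = -(∑ i, a i.succ * μ i x) / a 0 := by
        rw [neg_div, Finset.sum_div, ← Finset.sum_neg_distrib]
        exact Finset.sum_congr rfl fun i _ => by ring
      rw [this, ← h x]
      field_simp
      ring
    have h3 := hK.ind (fun i => a i.succ) b fun x => by simpa [h0] using h x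
    exact funext fun i => Fin.cases h0 (fun i => congrFun h3 i) i

end K10

open K10

theorem st_FAM (hX : St_X0) (hO : St_ONE) (hP : St_PBX) (hI : St_IND) : St_FAM := by
  intro n M _ G φ r hS hH
  have hle : ∀ k, (∃ μ : Fin k → M.X → ℝ, Kf M φ r μ) → k ≤ r := fun k ⟨μ, hK⟩ =>
    kf_le hO hS hK (xg_dense hX hO hP hI hS hH hK)
  obtain ⟨μ, hK⟩ := Nat.findGreatest_spec (P := fun k => ∃ μ : Fin k → M.X → ℝ, Kf M φ r μ)
    (Nat.zero_le r) ⟨fun i => i.elim0, fun i => i.elim0, fun i => i.elim0,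
      fun a _ _ => funext fun i => i.elim0⟩
  exact ⟨_, r - _, μ, (Nat.add_sub_cancel' (hle _ ⟨μ, hK⟩)).symm, hK, kmax_of hS hK fun h =>
    Nat.findGreatest_is_greatest (Nat.lt_succ_self _) (hle _ h) h, xg_open hX hO hS hK,
    xg_dense hX hO hP hI hS hH hK⟩

end Pool.Agent.Lib.RA
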