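import Pool.Agent.Lib.RYB.Blue
import Pool.Agent.Lib.RY.B_KPX

/-! Project ra2, step B: the common kernel on a polar ball. -/

open scoped Classical Topology ContDiff ComplexOrder Matrix
open Set MeasureTheory Complex Metric Filter

set_option linter.unusedVariables false

noncomputable section

namespace Pool.Agent.Lib.RA

open Pool.Agent.Lib.SV (E nsq)
open Pool.Agent.Lib.HS32 Pool.Agent.Lib.PN

theorem K10.rank_ker {p n : ℕ} (T : Matrix (Fin p) (Fin n) ℂ) :
    T.rank + Module.finrank ℂ (LinearMap.ker T.mulVecLin) = n :=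
  T.mulVecLin.finrank_range_add_finrank_ker.trans (Module.finrank_fin_fun ℂ)

theorem st_KPE : St_KPE := by
  intro n r Φ c R hH
  refine ⟨fun w hw => ?_, fun p A w hw h v hv u hu => ?_, fun m hm w hw h => ?_⟩
  · obtain ⟨h1, h2⟩ := PK.mem_ball_dg.1 hw
    obtain ⟨K, a, b⟩ := hH.ck _ h1
    have c1 : K ≤ LinearMap.ker (Gm Φ w).mulVecLin := fun x hx => b x hx _ h2
    exact Nat.le_of_add_le_add_right (((K10.rank_ker (Gm Φ w)).le.trans a).trans
      ((Nat.add_le_add_right (Submodule.finrank_mono c1) r).trans (Nat.add_comm _ _).le))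
  · obtain ⟨h1, h2⟩ := PK.mem_ball_dg.1 hw
    obtain ⟨K, a, b⟩ := hH.ck _ h1
    have c1 : K ≤ LinearMap.ker (A * Gm Φ w).mulVecLin := fun x hx => by
      rw [LinearMap.mem_ker, Matrix.mulVecLin_apply, ← Matrix.mulVec_mulVec, b x hx _ h2,
        Matrix.mulVec_zero]
    have c4 := Submodule.eq_of_le_of_finrank_le c1 (Nat.le_of_add_le_add_left
      ((Nat.add_le_add_right h _).trans (((K10.rank_ker _).le.trans a).trans (Nat.add_comm _ _).le)))
    exact b v (c4 ▸ hv) u hu
  · obtain ⟨h1, h2⟩ := PK.mem_ball_dg.1 hw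
    obtain ⟨δ, Ξ, a, b⟩ := K93.kpl hH hm h1 h2 h.ge
    have a1 := PK.hn_of_on isOpen_ball a.hd h1
    have a2 := (PK.hn_at a1).continuousAt.eventually_ne b
    refine ⟨fun z => (δ z)⁻¹ • Ξ z, ?_, ?_⟩
    · filter_upwards [a1, a2, PK.hn_of_on isOpen_ball a.hx h1] with z b1 b2 b3
      exact (b1.inv b2).smul b3
    · filter_upwards [a2, isOpen_ball.mem_nhds h1] with z b1 b2 u hu
      rw [Matrix.mulVec_smul, ← a.eq (z, u) (PK.mk_mem_ball.2 ⟨b2, hu⟩), smul_smul,
        inv_mul_cancel₀ b1, one_smul]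

end Pool.Agent.Lib.RA
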