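import Pool.Agent.Lib.RYB.Blue
import Pool.Agent.Lib.RY.K_At
import Pool.Agent.Lib.RY.B_CH2

/-! Project ra2, step B: one chart suffices. -/

open scoped Classical Topology ContDiff ComplexOrder Matrix
open Set Complex Metric Filter

set_option linter.unusedVariables false

noncomputable section

namespace Pool.Agent.Lib.RA

open Pool.Agent.Lib.SV (E)
open Pool.Agent.Lib.HS32 KA

namespace ONE

variable {n : ℕ} {M : Mf n} {e e' : M.Ch} {x : M.X}

theorem J_inv (he : e ∈ M.C) (he' : e' ∈ M.C) (hx : x ∈ e.source) (hx' : x ∈ e'.source) :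
    M.J e e' x * M.J e' e x = 1 := ((mTR n M).2.1 e he e' he' x hx hx').2.2.1

/-- The `(0,1)` derivative is a covector. -/
theorem dbv_cmp {μ : M.X → ℝ} (h : SmAt M μ x) (he : e ∈ M.C) (he' : e' ∈ M.C)
    (hx : x ∈ e.source) (hx' : x ∈ e'.source) :
    dbv (μ ∘ e'.symm) (e' x) = (M.J e e' x)ᴴ *ᵥ dbv (μ ∘ e.symm) (e x) := by
  funext l
  have a := ((mCHN n _ _ (hol_tr he he' hx hx')).2.2.2.2.2.2.2.2.2.1 (M.lc μ e)
    (by rw [tr_pt hx']; exact cd_diff (cd_ofReal (h e he hx))) l).2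
  rw [tr_pt hx'] at a
  refine ((dzb_congr (comp_ev (fun y => (μ y : ℂ)) hx hx')).trans a).trans ?_
  exact Finset.sum_congr rfl fun i _ => mul_comm _ _

theorem inj_conj {J : Mat n} (h : J.det ≠ 0) : Function.Injective fun v : E n => Jᴴ *ᵥ v :=
  Matrix.mulVec_injective_of_isUnit ((Matrix.isUnit_iff_isUnit_det _).2
    (by rw [Matrix.det_conjTranspose]; exact (star_ne_zero.2 h).isUnit))

theorem holTo_of {m : ℕ} {σ : E m → M.X} {t : E m} (he : e ∈ M.C) (hx : σ t ∈ e.source)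
    (hc : ContinuousAt σ t) (h : HolN (e ∘ σ) t) : HolTo M σ t := by
  refine ⟨hc, fun e' he' hx' => holN_congr (holN_comp (K := e' ∘ e.symm)
    (hol_tr he' he hx' hx) h) ?_⟩
  filter_upwards [hc.eventually (e.open_source.mem_nhds hx)] with w hw
  simp only [Function.comp, e.left_inv hw]

theorem kpe_of {φ : M.Fam ℝ} {μ : M.X → ℝ} (hφ : WtP M φ) (hμ : AnAt M μ x) (he : e ∈ M.C)
    (hx : x ∈ e.source) (h : KPe (φ e) (μ ∘ e.symm) (e x)) :
    At M x fun e z => KPe (φ e) (μ ∘ e.symm) z := by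
  intro e' he' hx'
  obtain ⟨V, hV, hE⟩ := h
  have h1 := hol_tr he he' hx hx'
  refine ⟨fun w => jr (e' ∘ e.symm) ((e ∘ e'.symm) w) *ᵥ V ((e ∘ e'.symm) w), ?_, ?_⟩
  · refine holN_comp (K := fun u => jr (e' ∘ e.symm) u *ᵥ V u) ?_ h1
    rw [tr_pt hx']
    have h2 : ∀ᶠ u in 𝓝 (e x), ∀ i l, DifferentiableAt ℂ (fun u => jr (e' ∘ e.symm) u i l) u := by
      simp only [eventually_all]
      exact fun i l => BCH2.hol_jr (hol_tr he' he hx' hx) i l
    filter_upwards [hV, h2] with u a b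
    exact differentiableAt_pi.2 fun i => DifferentiableAt.fun_sum (u := Finset.univ)
      fun l _ => (b i l).mul (differentiableAt_pi.1 a l)
  · have h3 : ∀ᶠ y in 𝓝 x, hr (φ e) (e y) *ᵥ V (e y) = dbv (μ ∘ e.symm) (e y) :=
      (e.continuousAt hx).eventually hE
    filter_upwards [(ev_iff hx').1 (h3.and ((anAt_ev hμ).and (e.open_source.eventually_mem hx))),
      e'.open_target.mem_nhds (e'.map_source hx')] with w ⟨a, b, c⟩ d
    have c' := e'.map_target d
    have q1 := hw_cmp hφ he he' c c'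
    have q2 := dbv_cmp (smAt_of_an b) he he' c c'
    rw [e'.right_inv d] at q1 q2
    rw [q2, ← a, ← hw_eq, q1]
    change _ *ᵥ M.J e' e (e'.symm w) *ᵥ V (e (e'.symm w)) = _
    rw [Matrix.mulVec_mulVec, Matrix.mul_assoc, J_inv he he' c c', Matrix.mul_one,
      Matrix.mulVec_mulVec, hw_eq]

theorem come_of {φ : M.Fam ℝ} {μ ν : M.X → ℝ} (hφ : WtP M φ) (hμ : AnAt M μ x) (hν : AnAt M ν x)
    (he : e ∈ M.C) (hx : x ∈ e.source) (h : Come (φ e) (μ ∘ e.symm) (ν ∘ e.symm) (e x)) :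
    ComAt M φ μ ν x := by
  intro e' he' hx' V W hV hW
  have inj := inj_conj (det_J he he' hx hx')
  rw [hw_cmp hφ he he' hx hx', ← Matrix.mulVec_mulVec, ← Matrix.mulVec_mulVec] at hV hW ⊢
  rw [dbv_cmp (smAt_of_an hμ) he he' hx hx'] at hV
  rw [dbv_cmp (smAt_of_an hν) he he' hx hx'] at hW
  have := h _ _ (inj hV) (inj hW)
  rwa [Matrix.star_mulVec, ← Matrix.dotProduct_mulVec] at this

end ONE

theorem st_ONE : St_ONE := fun n M e he x hx =>
  ⟨fun F _ _ g => ⟨anAt_of he hx, smAt_of he hx⟩, fun F _ _ g => holAt_of he hx,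
    fun r H h s => subm_of (holAt_of he hx h) he hx s,
    fun m σ t ht hc h => ONE.holTo_of he (ht ▸ hx) hc h,
    fun k μ hμ h e' he' hx' => by
      simp only [fun i => ONE.dbv_cmp (smAt_of_an (hμ i)) he he' hx hx']
      exact h.map' (Matrix.mulVecLin _)
        (LinearMap.ker_eq_bot.2 (ONE.inj_conj (det_J he he' hx hx'))),
    fun φ hφ => ⟨rank_ev (ten_hw hφ) he hx, fun g hg q => eqAt_hs hg (ten_hw hφ) he hx q,
      fun μ hμ h => ONE.kpe_of hφ hμ he hx h, fun μ ν hμ hν h => ONE.come_of hφ hμ hν he hx h⟩⟩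

end Pool.Agent.Lib.RA
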