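import Pool.Agent.Lib.RYB.Blue
import Pool.Agent.Lib.RA.T_POL
import Pool.Agent.Lib.RA.T_AN

/-! Project ra2, step B: polar balls. -/

open scoped Classical Topology ContDiff ComplexOrder Matrix
open Set MeasureTheory Complex Metric Filter

set_option linter.unusedVariables false

noncomputable section

namespace Pool.Agent.Lib.RA

open Pool.Agent.Lib.SV (E nsq)
open Pool.Agent.Lib.HS32 Pool.Agent.Lib.PN

namespace K10

variable {n r : ℕ} {M : Mf n} {e : M.Ch} {x : M.X}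

theorem ev_chart {p : M.X → Prop} (hx : x ∈ e.source) :
    (∀ᶠ y in 𝓝 x, p y) ↔ ∀ᶠ z in 𝓝 (e x), p (e.symm z) := by
  rw [← e.symm_map_nhds_eq hx, eventually_map]

theorem ev_tgt {p : M.X → Prop} {z : E n} (hz : z ∈ e.target) :
    (∀ᶠ y in 𝓝 (e.symm z), p y) ↔ ∀ᶠ w in 𝓝 z, p (e.symm w) := by
  rw [ev_chart (e.map_target hz), e.right_inv hz]

theorem at_tgt {p : M.Ch → E n → Prop} {z : E n} (he : e ∈ M.C) (hz : z ∈ e.target)
    (h : At M (e.symm z) p) : p e z := by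
  have := h e he (e.map_target hz)
  rwa [e.right_inv hz] at this

theorem an_dg {F : E n × E n → ℂ} {z : E n} (h : Hn F (dg z)) :
    AnalyticAt ℝ (fun w => F (dg w)) z :=
  ((ANB.analyticAt h).restrictScalars (𝕜 := ℝ)).comp ((PK.dgL n).analyticAt z)

theorem an_pt {F : E n × E n → ℂ} {z : E n} (h : Hn F (dg z)) : AnalyticAt ℝ (pt F) z :=
  (reCLM.analyticAt _).comp (an_dg h)

theorem plz_hn {f : E n → ℝ} {Φ : E n × E n → ℂ} {c z : E n} {R : ℝ} (h : Plz f Φ c R)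
    (hz : z ∈ ball c R) : Hn Φ (dg z) := PK.hn_of_on isOpen_ball h.hol (PK.dg_mem_ball.2 hz)

theorem plz_ev {f : E n → ℝ} {Φ : E n × E n → ℂ} {c z : E n} {R : ℝ} (h : Plz f Φ c R)
    (hz : z ∈ ball c R) : (fun w => (f w : ℂ)) =ᶠ[𝓝 z] fun w => Φ (dg w) := by
  filter_upwards [isOpen_ball.mem_nhds hz] with w hw using (h.eq w hw).symm

theorem plz_hr {f : E n → ℝ} {Φ : E n × E n → ℂ} {c z : E n} {R : ℝ} (h : Plz f Φ c R)
    (hz : z ∈ ball c R) : hr f z = Gm Φ (dg z) :=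
  (hess_congr (plz_ev h hz)).trans (PK.hess_dg (plz_hn h hz))

theorem plz_dbv {f : E n → ℝ} {Φ : E n × E n → ℂ} {c z : E n} {R : ℝ} (h : Plz f Φ c R)
    (hz : z ∈ ball c R) : dbv f z = pu Φ (dg z) :=
  funext fun i => (dzb_congr (plz_ev h hz)).trans (PK.dzb_dg (PK.hn_at (plz_hn h hz)) i)

theorem kpe_plz {Φ m : E n × E n → ℂ} {c : E n} {R : ℝ} (h : Kpe Φ m c R) : Plz (pt m) m c R :=
  ⟨h.hol, fun z hz => (Complex.ext rfl (by simpa using h.real z hz))⟩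

theorem dbv_congr {f g : E n → ℝ} {z : E n} (h : f =ᶠ[𝓝 z] g) : dbv f z = dbv g z :=
  funext fun i => dzb_congr (h.mono fun w hw => by simp only [hw])

theorem kpe_congr {f μ ν : E n → ℝ} {z : E n} (h : KPe f μ z) (e : μ =ᶠ[𝓝 z] ν) : KPe f ν z := by
  obtain ⟨V, h1, h2⟩ := h
  refine ⟨V, h1, ?_⟩
  filter_upwards [h2, e.eventuallyEq_nhds] with w a b using a.trans (dbv_congr b)

theorem come_congr {f μ ν μ' ν' : E n → ℝ} {z : E n} (h : Come f μ ν z) (e : μ =ᶠ[𝓝 z] μ')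
    (e' : ν =ᶠ[𝓝 z] ν') : Come f μ' ν' z := fun V W a b =>
  h V W (a.trans (dbv_congr e).symm) (b.trans (dbv_congr e').symm)

theorem x0_iff (hO : St_ONE) {φ : M.Fam ℝ} (hw : WtP M φ) (he : e ∈ M.C) (hx : x ∈ e.source) :
    x ∈ X0 M (M.hw φ) r ↔ (hr (φ e) (e x)).rank = r := by
  rw [← ((hO n M e he x hx).2.2.2.2.2 φ hw).1]; rfl

theorem x0_tgt (hO : St_ONE) {φ : M.Fam ℝ} (hw : WtP M φ) (he : e ∈ M.C) {z : E n}
    (hz : z ∈ e.target) : e.symm z ∈ X0 M (M.hw φ) r ↔ (hr (φ e) z).rank = r := by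
  rw [x0_iff hO hw he (e.map_target hz), e.right_inv hz]

/-- A Killing potential read in a chart. -/
theorem kp_tgt (hO : St_ONE) {φ : M.Fam ℝ} (hw : WtP M φ) (he : e ∈ M.C) {z : E n}
    (hz : z ∈ e.target) {μ : M.X → ℝ} (h : KPAt M φ r μ (e.symm z)) :
    AnalyticAt ℝ (μ ∘ e.symm) z ∧
      ∀ᶠ w in 𝓝 z, (hr (φ e) w).rank = r → KPe (φ e) (μ ∘ e.symm) w := by
  refine ⟨at_tgt he hz h.1, ?_⟩
  filter_upwards [(ev_tgt hz).1 h.2, e.open_target.mem_nhds hz] with w a b c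
  exact at_tgt (p := fun e z => KPe (φ e) (μ ∘ e.symm) z) he b (a ((x0_tgt hO hw he b).2 c))

theorem su_psd {G : M.Fam (Mat n)} {φ : M.Fam ℝ} (hS : Su M G φ r) (he : e ∈ M.C) {z : E n}
    (hz : z ∈ e.target) : (hr (φ e) z).PosSemidef := by
  show (M.hw φ e z).PosSemidef
  simpa using hS.psd e he z hz

theorem pb_of (hO : St_ONE) {G : M.Fam (Mat n)} {φ : M.Fam ℝ} (hS : Su M G φ r) (hH : HF M φ r)
    (he : e ∈ M.C) {c : E n} {R : ℝ} {Φ : E n × E n → ℂ} (h0 : 0 < R) (hs : ball c R ⊆ e.target)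
    (hP : Plz (φ e) Φ c R) : Pb (φ e) Φ c R r := by
  refine ⟨h0, hP, hH e he c R Φ hs hP, fun z hz => ?_, fun z hz => ?_⟩
  · exact su_psd hS he (hs hz)
  · have h1 : ∃ᶠ y in 𝓝 (e.symm z), y ∈ X0 M (M.hw φ) r :=
      mem_closure_iff_frequently.1 (hS.den _)
    rw [Filter.Frequently, ev_tgt (hs hz)] at h1
    refine fun h => h1 ?_
    filter_upwards [h, e.open_target.mem_nhds (hs hz)] with w a b c
    exact a ((x0_tgt hO hS.wt he b).1 c)

end K10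

open K10

theorem st_PBX (hK : St_KPX) (hO : St_ONE) : St_PBX := by
  intro n r M G φ hS hH e he
  refine ⟨fun c hc => ?_, fun c R Φ h0 hs hP => ⟨pb_of hO hS hH he h0 hs hP, fun μ hμ => ?_⟩⟩
  · obtain ⟨R, h0, F, h1, h2⟩ := st_POL.1 n (φ e) c (hS.an e he c hc)
    obtain ⟨ε, hε, h3⟩ := Metric.mem_nhds_iff.1 (e.open_target.mem_nhds hc)
    have hs : ball c (min R ε) ⊆ e.target := (ball_subset_ball (min_le_right _ _)).trans h3
    exact ⟨min R ε, F, hs, pb_of hO hS hH he (lt_min h0 hε) hs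
      ⟨h1.mono (ball_subset_ball (min_le_left _ _)),
        fun z hz => h2 z (ball_subset_ball (min_le_left _ _) hz)⟩⟩
  · have hc := mem_ball_self (x := c) h0
    obtain ⟨h1, h2⟩ := kp_tgt hO hS.wt he (hs hc) (hμ c hc)
    obtain ⟨m, h3, h4⟩ := hK n r _ Φ c R _ (pb_of hO hS hH he h0 hs hP) c hc h1 h2
    refine ⟨m, h3, AnalyticOnNhd.eqOn_of_preconnected_of_eventuallyEq (𝕜 := ℝ)
      (f := fun z => m (dg z)) (g := fun z => (μ (e.symm z) : ℂ))
      (fun z hz => an_dg (plz_hn (kpe_plz h3) hz)) (fun z hz => ?_)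
      (convex_ball c R).isPreconnected hc h4⟩
    exact (ofRealCLM.analyticAt _).comp (kp_tgt hO hS.wt he (hs hz) (hμ z hz)).1

end Pool.Agent.Lib.RA
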