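import Pool.Agent.Lib.RY.Blue0
import Pool.Agent.Lib.RA.T_PK

/-! Project ra2, step B: objects in coordinates and the blocks. -/

open scoped Classical Topology ContDiff ComplexOrder Matrix
open Set MeasureTheory Complex Metric Filter

set_option linter.unusedVariables false

noncomputable section

namespace Pool.Agent.Lib.RA

open Pool.Agent.Lib.SV (E nsq)
open Pool.Agent.Lib.HS32 Pool.Agent.Lib.PN

section euc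

variable {n r k j : ℕ}

/-- `μ` is the potential of a holomorphic field near `z`. -/
def KPe (f μ : E n → ℝ) (z : E n) : Prop :=
  ∃ V : E n → E n, HolN V z ∧ ∀ᶠ w in 𝓝 z, hr f w *ᵥ V w = dbv μ w

/-- The bracket vanishes at `z`. -/
def Come (f μ ν : E n → ℝ) (z : E n) : Prop :=
  ∀ V W : E n, hr f z *ᵥ V = dbv μ z → hr f z *ᵥ W = dbv ν z → (star W ⬝ᵥ hr f z *ᵥ V).im = 0

/-- A polar ball. -/
structure Pb (f : E n → ℝ) (Φ : E n × E n → ℂ) (c : E n) (R : ℝ) (r : ℕ) : Prop where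
  r0 : 0 < R
  plz : Plz f Φ c R
  hf : HFe Φ c R r
  psd : ∀ z ∈ ball c R, (hr f z).PosSemidef
  den : ∀ z ∈ ball c R, ∃ᶠ w in 𝓝 z, (hr f w).rank = r

/-- A commuting family of germs at `z`. -/
structure Kg (f : E n → ℝ) (μ : Fin k → E n → ℝ) (z : E n) : Prop where
  an : ∀ i, AnalyticAt ℝ (μ i) z
  kp : ∀ i, KPe f (μ i) z
  com : ∀ᶠ w in 𝓝 z, ∀ i i', Come f (μ i) (μ i') w

end euc

/-! ### Coordinates -/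

/-- The common kernel, and the field of a polarised potential near a point of rank `r`. -/
def St_KPE : Prop := ∀ (n r : ℕ) (Φ : E n × E n → ℂ) (c : E n) (R : ℝ), HFe Φ c R r →
  (∀ w ∈ ball (dg c) R, (Gm Φ w).rank ≤ r) ∧
  (∀ (p : ℕ) (A : Matrix (Fin p) (Fin n) ℂ), ∀ w ∈ ball (dg c) R, r ≤ (A * Gm Φ w).rank →
    ∀ v, (A * Gm Φ w) *ᵥ v = 0 → ∀ u ∈ ball (star c) R, Gm Φ (w.1, u) *ᵥ v = 0) ∧
  ∀ m, Kpe Φ m c R → ∀ w ∈ ball (dg c) R, (Gm Φ w).rank = r → ∃ V : E n → E n, HolN V w.1 ∧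
    ∀ᶠ z in 𝓝 w.1, ∀ u ∈ ball (star c) R, Gm Φ (z, u) *ᵥ V z = pu m (z, u)

/-- Extension of a Killing potential to a polar ball. -/
def St_KPX : Prop := ∀ (n r : ℕ) (f : E n → ℝ) (Φ : E n × E n → ℂ) (c : E n) (R : ℝ)
  (μ : E n → ℝ), Pb f Φ c R r → ∀ y ∈ ball c R, AnalyticAt ℝ μ y →
  (∀ᶠ z in 𝓝 y, (hr f z).rank = r → KPe f μ z) →
  ∃ m, Kpe Φ m c R ∧ ∀ᶠ z in 𝓝 y, m (dg z) = μ z

/-- Propagation of the bracket on a polar ball. -/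
def St_COM : Prop := ∀ (n r : ℕ) (f : E n → ℝ) (Φ m m' : E n × E n → ℂ) (c : E n) (R : ℝ),
  Pb f Φ c R r → Kpe Φ m c R → Kpe Φ m' c R → ∀ y ∈ ball c R,
  (∀ᶠ z in 𝓝 y, (hr f z).rank = r → Come f (pt m) (pt m') z) →
  (∀ δ Ξ δ' Ξ', Fld Φ m c R δ Ξ → Fld Φ m' c R δ' Ξ' → ∀ w ∈ ball (dg c) R,
    δ' w.1 * (pz m' w ⬝ᵥ Ξ w.1) = δ w.1 * (pz m w ⬝ᵥ Ξ' w.1)) ∧
  ∀ z ∈ ball c R, (hr f z).rank = r → Come f (pt m) (pt m') z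

/-- Complex dependence on an open set gives real dependence modulo constants. -/
def St_IND : Prop := ∀ (n r k : ℕ) (f : E n → ℝ) (Φ : E n × E n → ℂ) (c : E n) (R : ℝ)
  (μ : Fin k → E n → ℝ), Pb f Φ c R r → ∀ y ∈ ball c R, (hr f y).rank = r → Kg f μ y →
  (∀ᶠ z in 𝓝 y, ¬LinearIndependent ℂ fun i => dbv (μ i) z) →
  ∃ (a : Fin k → ℝ) (b : ℝ), a ≠ 0 ∧ ∀ᶠ z in 𝓝 y, ∑ i, a i * μ i z = b

/-- Descent to the transversal. -/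
def St_BX1 : Prop := ∀ (n r k : ℕ) (f : E n → ℝ) (Φ : E n × E n → ℂ) (c : E n) (R : ℝ)
  (μ : Fin k → E n → ℝ), Pb f Φ c R r → (hr f c).rank = r → Kg f μ c →
  LinearIndependent ℂ (fun i => dbv (μ i) c) →
  ∃ (τ : E n → E r) (s : E r → E n), HolN τ c ∧ τ c = 0 ∧ HolN s 0 ∧ s 0 = c ∧
    (∀ᶠ t in 𝓝 (0 : E r), τ (s t) = t) ∧
    (∀ᶠ z in 𝓝 c, Function.Surjective (fderiv ℂ τ z) ∧ hr ((f ∘ s) ∘ τ) z = hr f z ∧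
      ∀ i, μ i (s (τ z)) = μ i z) ∧
    AnalyticAt ℝ (f ∘ s) 0 ∧ (hr (f ∘ s) 0).PosDef ∧ Kg (f ∘ s) (fun i => μ i ∘ s) 0 ∧
    LinearIndependent ℂ fun i => dbv (μ i ∘ s) 0

/-- Commuting potentials have commuting fields. -/
def St_BXC : Prop := ∀ (r : ℕ) (f μ ν : E r → ℝ) (V W : E r → E r) (z : E r), AnalyticAt ℝ f z →
  AnalyticAt ℝ μ z → AnalyticAt ℝ ν z → (hr f z).det ≠ 0 → HolN V z → HolN W z →
  (∀ᶠ w in 𝓝 z, hr f w *ᵥ V w = dbv μ w ∧ hr f w *ᵥ W w = dbv ν w ∧ Come f μ ν w) →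
  ∀ᶠ w in 𝓝 z, fderiv ℂ V w (W w) = fderiv ℂ W w (V w)

/-- The invariant potential when the fields are the first `k` coordinate fields. -/
def St_BXP : Prop := ∀ (k j : ℕ) (f : E (k + j) → ℝ) (μ : Fin k → E (k + j) → ℝ),
  AnalyticAt ℝ f 0 → (∀ i, AnalyticAt ℝ (μ i) 0) → (hr f 0).PosDef →
  (∀ᶠ t in 𝓝 (0 : E (k + j)), ∀ i, hr f t *ᵥ Pi.single (Fin.castAdd j i) 1 = dbv (μ i) t ∧
    ∀ i', (hr f t (Fin.castAdd j i') (Fin.castAdd j i)).im = 0) →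
  ∃ (Ψ : E (k + j) × E (k + j) → ℂ) (c : ℝ), (∀ᶠ δ in 𝓝[>] (0 : ℝ), Tv k j Ψ δ c) ∧
    ∀ᶠ t in 𝓝 (0 : E (k + j)), hr (ph0 Ψ) t = hr f t ∧ ∀ i, μ i t = mu0 Ψ t i

/-- The normal form on the transversal. -/
def St_BX2 : Prop := ∀ (k j : ℕ) (f : E (k + j) → ℝ) (μ : Fin k → E (k + j) → ℝ),
  AnalyticAt ℝ f 0 → (hr f 0).PosDef → Kg f μ 0 → LinearIndependent ℂ (fun i => dbv (μ i) 0) →
  ∃ (ψ χ : E (k + j) → E (k + j)) (Ψ : E (k + j) × E (k + j) → ℂ) (c : ℝ), HolN ψ 0 ∧ ψ 0 = 0 ∧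
    HolN χ 0 ∧ χ 0 = 0 ∧ (∀ᶠ t in 𝓝 (0 : E (k + j)), ψ (χ t) = t) ∧
    (∀ᶠ δ in 𝓝[>] (0 : ℝ), Tv k j Ψ δ c) ∧
    ∀ᶠ t in 𝓝 (0 : E (k + j)), Function.Surjective (fderiv ℂ ψ t) ∧
      hr (ph0 Ψ ∘ ψ) t = hr f t ∧ ∀ i, μ i t = mu0 Ψ (ψ t) i

/-- A box in coordinates. -/
def St_BXE : Prop := ∀ (n k j : ℕ) (f : E n → ℝ) (Φ : E n × E n → ℂ) (c : E n) (R : ℝ)
  (μ : Fin k → E n → ℝ), Pb f Φ c R (k + j) → (hr f c).rank = k + j → Kg f μ c →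
  LinearIndependent ℂ (fun i => dbv (μ i) c) →
  ∃ (Ψ : E (k + j) × E (k + j) → ℂ) (δ c₀ : ℝ) (U : Set (E n)) (H : E n → E (k + j))
    (s : E (k + j) → E n), Tv k j Ψ δ c₀ ∧ IsOpen U ∧ c ∈ U ∧ U ⊆ ball c R ∧ H c = 0 ∧ s 0 = c ∧
    (∀ z ∈ U, HolN H z ∧ ‖H z‖ < 2 * δ ∧ Function.Surjective (fderiv ℂ H z) ∧
      ContDiffAt ℝ ∞ (ph0 Ψ ∘ H) z ∧ hr (ph0 Ψ ∘ H) z = hr f z ∧ ∀ i, μ i z = mu0 Ψ (H z) i) ∧
    ∀ t ∈ ball (0 : E (k + j)) (2 * δ), s t ∈ U ∧ H (s t) = t ∧ HolN s t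

/-! ### Manifolds -/

/-- One chart suffices. -/
def St_ONE : Prop := ∀ (n : ℕ) (M : Mf n), ∀ e ∈ M.C, ∀ x ∈ e.source,
  (∀ (F : Type) [NormedAddCommGroup F] [NormedSpace ℝ F] (g : M.X → F),
    (AnalyticAt ℝ (g ∘ e.symm) (e x) → AnAt M g x) ∧
    (ContDiffAt ℝ ∞ (g ∘ e.symm) (e x) → SmAt M g x)) ∧
  (∀ (F : Type) [NormedAddCommGroup F] [NormedSpace ℂ F] (g : M.X → F),
    HolN (g ∘ e.symm) (e x) → HolAt M g x) ∧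
  (∀ (r : ℕ) (H : M.X → E r), HolN (H ∘ e.symm) (e x) →
    Function.Surjective (fderiv ℂ (H ∘ e.symm) (e x)) → Subm M H x) ∧
  (∀ (m : ℕ) (σ : E m → M.X) (t : E m), σ t = x → ContinuousAt σ t → HolN (e ∘ σ) t →
    HolTo M σ t) ∧
  (∀ (k : ℕ) (μ : Fin k → M.X → ℝ), (∀ i, AnAt M (μ i) x) →
    LinearIndependent ℂ (fun i => dbv (μ i ∘ e.symm) (e x)) →
    At M x fun e z => LinearIndependent ℂ fun i => dbv (μ i ∘ e.symm) z) ∧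
  ∀ φ, WtP M φ → (M.ev (M.hw φ) x).rank = (hr (φ e) (e x)).rank ∧
    (∀ g : M.X → ℝ, SmAt M g x → hr (g ∘ e.symm) (e x) = hr (φ e) (e x) →
      EqAt M (M.hs g) (M.hw φ) x) ∧
    (∀ μ, AnAt M μ x → KPe (φ e) (μ ∘ e.symm) (e x) →
      At M x fun e z => KPe (φ e) (μ ∘ e.symm) z) ∧
    ∀ μ ν, AnAt M μ x → AnAt M ν x → Come (φ e) (μ ∘ e.symm) (ν ∘ e.symm) (e x) →
      ComAt M φ μ ν x

/-- Polar balls, and global potentials on them. -/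
def St_PBX : Prop := ∀ (n r : ℕ) (M : Mf n) (G : M.Fam (Mat n)) (φ : M.Fam ℝ), Su M G φ r →
  HF M φ r → ∀ e ∈ M.C,
  (∀ c ∈ e.target, ∃ R Φ, ball c R ⊆ e.target ∧ Pb (φ e) Φ c R r) ∧
  ∀ c R Φ, 0 < R → ball c R ⊆ e.target → Plz (φ e) Φ c R → Pb (φ e) Φ c R r ∧
    ∀ μ, (∀ z ∈ ball c R, KPAt M φ r μ (e.symm z)) →
      ∃ m, Kpe Φ m c R ∧ ∀ z ∈ ball c R, m (dg z) = μ (e.symm z)

theorem kpAt_iff {n r : ℕ} {M : Mf n} {φ : M.Fam ℝ} {μ : M.X → ℝ} {x : M.X} :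
    KPAt M φ r μ x ↔ AnAt M μ x ∧ ∀ᶠ y in 𝓝 x, y ∈ X0 M (M.hw φ) r →
      At M y fun e z => KPe (φ e) (μ ∘ e.symm) z := Iff.rfl

theorem comAt_iff {n : ℕ} {M : Mf n} {φ : M.Fam ℝ} {μ ν : M.X → ℝ} {x : M.X} :
    ComAt M φ μ ν x ↔ At M x fun e z => Come (φ e) (μ ∘ e.symm) (ν ∘ e.symm) z := Iff.rfl

end Pool.Agent.Lib.RA
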